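import Pool.Agent.N870.EC.Stm

/-!
# EC/DEN2, DEN4: the numbers of the residues (helper568)
-/

set_option autoImplicit false

namespace Pool.Agent.N568.EC

open Finset

open scoped Classical

theorem transfer (p m : ℕ) [Fact p.Prime] (hm : ¬ p ∣ m) (P : ℕ × ℕ → Prop) [DecidablePred P]
    (Q : ZMod p × ZMod p → Prop) [DecidablePred Q]
    (h : ∀ t : ℕ × ℕ, P t ↔ Q (((1 + m * t.1 : ℤ) : ZMod p), ((t.2 : ℤ) : ZMod p))) :
    ((range p ×ˢ range p).filter P).card = (univ.filter Q).card := by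
  have hm0 : (m : ZMod p) ≠ 0 := by
    rwa [Ne, ZMod.natCast_eq_zero_iff]
  have hval : ∀ a b : ℕ, a ∈ range p → b ∈ range p → (a : ZMod p) = b → a = b := by
    intro a b ha hb hab
    rw [mem_range] at ha hb
    have h1 := congrArg ZMod.val hab
    rwa [ZMod.val_cast_of_lt ha, ZMod.val_cast_of_lt hb] at h1
  refine Finset.card_bij
    (fun t _ => (((1 + m * t.1 : ℤ) : ZMod p), ((t.2 : ℤ) : ZMod p))) ?_ ?_ ?_
  · intro t ht
    rw [mem_filter] at ht ⊢
    exact ⟨mem_univ _, (h t).1 ht.2⟩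
  · rintro ⟨a, b⟩ h1 ⟨a', b'⟩ h2 h3
    rw [mem_filter, mem_product] at h1 h2
    rw [Prod.mk.injEq] at h3
    obtain ⟨h3, h4⟩ := h3
    push_cast at h3 h4
    have h5 : (a : ZMod p) = a' := mul_left_cancel₀ hm0 (add_left_cancel h3)
    rw [hval a a' h1.1.1 h2.1.1 h5, hval b b' h1.1.2 h2.1.2 h4]
  · rintro ⟨a, b⟩ h1
    rw [mem_filter] at h1
    have h2 : (((1 + m * (((a - 1) / m : ZMod p).val : ℕ) : ℤ) : ZMod p),
        (((b.val : ℕ) : ℤ) : ZMod p)) = (a, b) := by
      rw [Prod.mk.injEq]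
      push_cast
      rw [ZMod.natCast_zmod_val, ZMod.natCast_zmod_val, mul_div_cancel₀ _ hm0]
      exact ⟨by ring, rfl⟩
    refine ⟨(((a - 1) / m : ZMod p).val, b.val), ?_, h2⟩
    rw [mem_filter, mem_product, mem_range, mem_range]
    refine ⟨⟨ZMod.val_lt _, ZMod.val_lt _⟩, (h _).2 ?_⟩
    show Q _
    rw [h2]
    exact h1.2

theorem two_three (p m : ℕ) [Fact p.Prime] (hm : ¬ p ∣ m) :
    ((range p ×ˢ range p).filter (fun t : ℕ × ℕ => (p : ℤ) ∣ (1 + m * t.1 : ℤ) ∨
      (p : ℤ) ∣ (t.2 : ℤ))).card = 2 * p - 1 ∧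
    ((range p ×ˢ range p).filter (fun t : ℕ × ℕ => (p : ℤ) ∣ (1 + m * t.1 : ℤ) ∧
      (p : ℤ) ∣ (t.2 : ℤ))).card = 1 := by
  have h3 : ((univ : Finset (ZMod p × ZMod p)).filter (fun t => t.1 = 0 ∧ t.2 = 0)).card = 1 := by
    rw [card_eq_one]
    refine ⟨(0, 0), ?_⟩
    ext ⟨a, b⟩
    simp
  have hA : ((univ : Finset (ZMod p × ZMod p)).filter (fun t => t.1 = 0)).card = p := by
    have e : (univ : Finset (ZMod p × ZMod p)).filter (fun t => t.1 = 0) =
        ({0} : Finset (ZMod p)) ×ˢ univ := by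
      ext ⟨a, b⟩
      simp [eq_comm]
    rw [e, card_product, card_singleton, one_mul, card_univ, ZMod.card]
  have hB : ((univ : Finset (ZMod p × ZMod p)).filter (fun t => t.2 = 0)).card = p := by
    have e : (univ : Finset (ZMod p × ZMod p)).filter (fun t => t.2 = 0) =
        univ ×ˢ ({0} : Finset (ZMod p)) := by
      ext ⟨a, b⟩
      simp [eq_comm]
    rw [e, card_product, card_singleton, mul_one, card_univ, ZMod.card]
  constructor
  · rw [transfer p m hm _ (fun t => t.1 = 0 ∨ t.2 = 0)]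
    · have h1 := card_union_add_card_inter
        ((univ : Finset (ZMod p × ZMod p)).filter (fun t => t.1 = 0))
        ((univ : Finset (ZMod p × ZMod p)).filter (fun t => t.2 = 0))
      rw [← filter_or, ← filter_and, h3, hA, hB] at h1
      omega
    · rintro ⟨a, b⟩
      simp only
      rw [ZMod.intCast_zmod_eq_zero_iff_dvd, ZMod.intCast_zmod_eq_zero_iff_dvd]
  · rw [transfer p m hm _ (fun t => t.1 = 0 ∧ t.2 = 0), h3]
    rintro ⟨a, b⟩
    simp only
    rw [ZMod.intCast_zmod_eq_zero_iff_dvd, ZMod.intCast_zmod_eq_zero_iff_dvd]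

theorem chi_count (p : ℕ) [Fact p.Prime] (hp : 5 ≤ p) :
    ((univ : Finset (ZMod p)).filter (fun a => quadraticChar (ZMod p) (3 * a) = 1)).card =
      (p - 1) / 2 := by
  have hpp : p.Prime := Fact.out
  have h30 : (3 : ZMod p) ≠ 0 := by
    intro h
    have h1 : ((3 : ℕ) : ZMod p) = 0 := by exact_mod_cast h
    rw [ZMod.natCast_eq_zero_iff] at h1
    have := Nat.le_of_dvd (by norm_num) h1
    omega
  have hc : ringChar (ZMod p) ≠ 2 := by
    rw [ZMod.ringChar_zmod_n]
    omega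
  have e1 : ∀ a : ZMod p, ((if quadraticChar (ZMod p) (3 * a) = 1 then 1 else 0 : ℤ)) * 2 =
      quadraticChar (ZMod p) 3 * quadraticChar (ZMod p) a + if a = 0 then 0 else 1 := by
    intro a
    rw [← map_mul]
    by_cases ha : a = 0
    · subst ha
      simp
    · rw [if_neg ha]
      rcases quadraticChar_dichotomy (mul_ne_zero h30 ha) with h | h
      · rw [h, if_pos rfl]; norm_num
      · rw [h, if_neg (by norm_num)]; norm_num
  have h1 : (∑ a : ZMod p, (if quadraticChar (ZMod p) (3 * a) = 1 then 1 else 0 : ℤ)) * 2 =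
      p - 1 := by
    rw [sum_mul, sum_congr rfl fun a _ => e1 a, sum_add_distrib, ← mul_sum,
      quadraticChar_sum_zero hc, mul_zero, zero_add, sum_ite]
    have e2 : ((univ : Finset (ZMod p)).filter (fun a => ¬ a = 0)).card = p - 1 := by
      rw [filter_not, card_sdiff_of_subset (filter_subset _ _), card_univ, ZMod.card]
      congr 1
      rw [card_eq_one]
      exact ⟨0, by ext a; simp⟩
    rw [sum_const_zero, zero_add, sum_const, e2, nsmul_eq_mul, mul_one]
    have := hpp.one_le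
    push_cast [this]
    ring
  rw [sum_boole] at h1
  have h2 : (((univ : Finset (ZMod p)).filter
      (fun a => quadraticChar (ZMod p) (3 * a) = 1)).card : ℤ) * 2 = p - 1 := by
    exact_mod_cast h1
  omega

theorem jac (p : ℕ) [Fact p.Prime] (a : ℤ) :
    jacobiSym a p = quadraticChar (ZMod p) (a : ZMod p) := by
  rw [← jacobiSym.legendreSym.to_jacobiSym]
  rfl

theorem t_DEN2 : Pool.Agent.N870.EC.S_DEN2 := by
  intro p m hpp hp hm
  have : Fact p.Prime := ⟨hpp⟩
  refine ⟨?_, two_three p m hm⟩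
  rw [transfer p m hm _ (fun t => t.1 = t.2 ∧ quadraticChar (ZMod p) (3 * t.1) = 1),
    ← chi_count p hp]
  · symm
    refine card_bij (fun a _ => (a, a)) ?_ ?_ ?_
    · intro a ha
      rw [mem_filter] at ha ⊢
      exact ⟨mem_univ _, rfl, ha.2⟩
    · intro a _ b _ h
      exact congrArg Prod.fst h
    · rintro ⟨a, b⟩ h
      rw [mem_filter] at h
      obtain ⟨-, h1, h2⟩ := h
      simp only at h1 h2
      subst h1
      exact ⟨a, mem_filter.2 ⟨mem_univ _, h2⟩, rfl⟩
  · rintro ⟨a, b⟩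
    simp only
    rw [← ZMod.intCast_zmod_eq_zero_iff_dvd, Int.cast_sub, sub_eq_zero, jac, Int.cast_mul]
    simp

theorem count4 (p : ℕ) [Fact p.Prime] (hp : 5 ≤ p) :
    ((univ : Finset (ZMod p × ZMod p)).filter (fun t => t.1 ≠ 0 ∧ t.2 ^ 2 = t.1 ^ 2)).card =
      2 * (p - 1) := by
  have hpp : p.Prime := Fact.out
  have h20 : (2 : ZMod p) ≠ 0 := by
    intro h
    have h1 : ((2 : ℕ) : ZMod p) = 0 := by exact_mod_cast h
    rw [ZMod.natCast_eq_zero_iff] at h1
    have := Nat.le_of_dvd (by norm_num) h1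
    omega
  have e2 : ((univ : Finset (ZMod p)).filter (fun a => a ≠ 0)).card = p - 1 := by
    rw [filter_not, card_sdiff_of_subset (filter_subset _ _), card_univ, ZMod.card]
    congr 1
    rw [card_eq_one]
    exact ⟨0, by ext a; simp⟩
  have e : (univ : Finset (ZMod p × ZMod p)).filter (fun t => t.1 ≠ 0 ∧ t.2 ^ 2 = t.1 ^ 2) =
      ((univ : Finset (ZMod p)).filter (fun a => a ≠ 0)).image (fun a => (a, a)) ∪
      ((univ : Finset (ZMod p)).filter (fun a => a ≠ 0)).image (fun a => (a, -a)) := by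
    ext ⟨a, b⟩
    simp only [mem_filter, mem_univ, true_and, mem_union, mem_image, Prod.mk.injEq]
    constructor
    · rintro ⟨h1, h2⟩
      rcases sq_eq_sq_iff_eq_or_eq_neg.1 h2 with h3 | h3
      · exact Or.inl ⟨a, h1, rfl, h3.symm⟩
      · exact Or.inr ⟨a, h1, rfl, h3.symm⟩
    · rintro (⟨c, h1, rfl, rfl⟩ | ⟨c, h1, rfl, rfl⟩)
      · exact ⟨h1, rfl⟩
      · exact ⟨h1, by ring⟩
  rw [e, card_union_of_disjoint, card_image_of_injective, card_image_of_injective, e2]
  · ring
  · intro a b h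
    exact congrArg Prod.fst h
  · intro a b h
    exact congrArg Prod.fst h
  · rw [disjoint_left]
    rintro ⟨a, b⟩ h1 h2
    simp only [mem_filter, mem_univ, true_and, mem_image, Prod.mk.injEq] at h1 h2
    obtain ⟨c, hc, rfl, rfl⟩ := h1
    obtain ⟨d, hd, rfl, h3⟩ := h2
    have : 2 * d = 0 := by linear_combination -h3
    rcases mul_eq_zero.1 this with h | h
    · exact h20 h
    · exact hd h

theorem t_DEN4 : Pool.Agent.N870.EC.S_DEN4 := by
  intro p m hpp hp hm
  have : Fact p.Prime := ⟨hpp⟩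
  refine ⟨?_, two_three p m hm⟩
  have hc : ringChar (ZMod p) ≠ 2 := by
    rw [ZMod.ringChar_zmod_n]
    omega
  have hodd : p % 2 = 1 := by
    rcases hpp.eq_two_or_odd with h | h
    · omega
    · exact h
  rw [transfer p m hm _ (fun t => t.2 ^ 2 = t.1 ^ 2 ∧ quadraticChar (ZMod p) (-t.1 ^ 2) = 1)]
  · have h1 : ∀ a : ZMod p, quadraticChar (ZMod p) (-a ^ 2) = 1 ↔ a ≠ 0 ∧ p % 4 = 1 := by
      intro a
      by_cases ha : a = 0
      · subst ha
        simp
      · have e1 : -a ^ 2 = (-1) * a ^ 2 := by ring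
        rw [e1, map_mul, quadraticChar_sq_one' ha, mul_one, quadraticChar_neg_one hc, ZMod.card]
        have h4 : p % 4 = 1 ∨ p % 4 = 3 := by omega
        rcases h4 with h4 | h4
        · rw [ZMod.χ₄_nat_one_mod_four h4]
          simp [ha, h4]
        · rw [ZMod.χ₄_nat_three_mod_four h4]
          simp [h4]
    by_cases h4 : p % 4 = 1
    · rw [if_pos h4, ← count4 p hp]
      congr 1
      ext ⟨a, b⟩
      simp only [mem_filter, mem_univ, true_and, h1, h4, and_true]
      tauto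
    · rw [if_neg h4, card_eq_zero]
      ext ⟨a, b⟩
      simp only [mem_filter, mem_univ, h1, h4, and_false]
      simp
  · rintro ⟨a, b⟩
    simp only
    rw [← ZMod.intCast_zmod_eq_zero_iff_dvd, jac]
    push_cast
    refine and_congr ?_ Iff.rfl
    constructor
    · intro h
      linear_combination h
    · intro h
      linear_combination h

end Pool.Agent.N568.EC
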